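import Mathlib
import Pool.Agent.Lib.BorsukUlam.Basic

/-!
Mod 2 cochains on lists: cup products, the fundamental class of a cube, and a triple-product
obstruction (Borromean type) together with the Brouwer type degree obstruction.
-/

set_option autoImplicit false

namespace Pool.Agent.Lib.CupDegree

open Pool.Agent.Lib.BorsukUlam Filter Topology Metric

section Chains

variable {X Y : Type*}

theorem del_congr (l : List X) : ∀ φ ψ : List X → ZMod 2,
    (∀ m : List X, (∀ v ∈ m, v ∈ l) → φ m = ψ m) → del l φ = del l ψ := by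
  induction l with
  | nil => intro φ ψ _; simp [del]
  | cons x l ih =>
    intro φ ψ h
    simp only [del]
    rw [h l (fun v hv => by simp [hv]), ih (fun m => φ (x :: m)) (fun m => ψ (x :: m))]
    intro m hm
    apply h
    intro v hv
    rcases List.mem_cons.1 hv with rfl | hv
    · simp
    · simp [hm v hv]

theorem del_smul (l : List X) (c : ZMod 2) : ∀ φ : List X → ZMod 2,
    del l (fun m => c * φ m) = c * del l φ := by
  induction l with
  | nil => intro φ; simp [del]
  | cons x l ih => intro φ; simp only [del]; rw [ih]; ring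

theorem del_sum {ι : Type*} (s : Finset ι) (l : List X) (φ : ι → List X → ZMod 2) :
    del l (fun m => ∑ i ∈ s, φ i m) = ∑ i ∈ s, del l (φ i) := by
  classical
  induction s using Finset.induction_on with
  | empty => simp [del_zero]
  | insert a s ha ih => simp only [Finset.sum_insert ha]; rw [del_add, ih]

theorem pr_loc' (f g : X → Y) (l : List X) (φ : List Y → ZMod 2)
    (h : ∀ m : List Y, (∀ y ∈ m, ∃ x ∈ l, y = f x ∨ y = g x) → φ m = 0) : pr f g l φ = 0 :=
  pr_loc f g l φ fun m _ hm => h m hm

theorem pr_head (f g : X → Y) (l : List X) : ∀ φ : List Y → ZMod 2,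
    (∀ x m, φ (f x :: m) = 0) → pr f g l φ = 0 := by
  intro φ h
  rcases l with _ | ⟨x, l⟩
  · simp [pr]
  · simp only [pr, h]
    rw [pr_loc' f g l _ (fun _ _ => rfl)]; simp

/-- cup product -/
def cup : List X → (List X → ZMod 2) → (List X → ZMod 2) → ZMod 2
  | [], _, _ => 0
  | v :: l, ω, η => ω [v] * η (v :: l) + cup l (fun m => ω (v :: m)) η

theorem cup_add (l : List X) : ∀ ω ω' η : List X → ZMod 2,
    cup l (fun m => ω m + ω' m) η = cup l ω η + cup l ω' η := by
  induction l with
  | nil => intro ω ω' η; simp [cup]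
  | cons x l ih => intro ω ω' η; simp only [cup]; rw [ih]; ring

theorem cup_smul (l : List X) (c : ZMod 2) : ∀ ω η : List X → ZMod 2,
    cup l (fun m => c * ω m) η = c * cup l ω η := by
  induction l with
  | nil => intro ω η; simp [cup]
  | cons x l ih => intro ω η; simp only [cup]; rw [ih]; ring

theorem cup_congr (l : List X) : ∀ ω ω' η η' : List X → ZMod 2,
    (∀ m : List X, (∀ v ∈ m, v ∈ l) → ω m = ω' m) →
    (∀ m : List X, (∀ v ∈ m, v ∈ l) → η m = η' m) → cup l ω η = cup l ω' η' := by
  induction l with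
  | nil => intro ω ω' η η' _ _; simp [cup]
  | cons x l ih =>
    intro ω ω' η η' h h'
    simp only [cup]
    rw [h [x] (by simp), h' (x :: l) (fun v hv => hv),
      ih (fun m => ω (x :: m)) (fun m => ω' (x :: m)) η η']
    · intro m hm
      apply h
      intro v hv
      rcases List.mem_cons.1 hv with rfl | hv
      · simp
      · simp [hm v hv]
    · intro m hm
      exact h' m fun v hv => by simp [hm v hv]

theorem cup_zero_left (l : List X) (η : List X → ZMod 2) : cup l (fun _ => 0) η = 0 := by
  induction l with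
  | nil => simp [cup]
  | cons x l ih => simp [cup, ih]

theorem cup_zero_right (l : List X) : ∀ ω : List X → ZMod 2, cup l ω (fun _ => 0) = 0 := by
  induction l with
  | nil => simp [cup]
  | cons x l ih => intro ω; simp [cup, ih]

theorem del_cup (l : List X) : ∀ ω η : List X → ZMod 2, η [] = 0 →
    del l (fun m => cup m ω η) =
      cup l (fun m => del m ω) η + cup l ω (fun m => del m η) + ω [] * η l := by
  induction l with
  | nil => intro ω η h; simp [del, cup, h]
  | cons x l ih =>
    intro ω η h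
    simp only [del, cup]
    rw [del_add, del_smul, ih _ _ h, cup_add]
    have := two (ω [] * η (x :: l))
    linear_combination -this

/-- the cup product of the coboundaries of a list of `0`-cochains -/
def th : List (X → ZMod 2) → List X → ZMod 2
  | [], [_] => 1
  | s :: ss, v :: w :: l => (s v + s w) * th ss (w :: l)
  | _, _ => 0

theorem th_nil (ss : List (X → ZMod 2)) : th ss [] = 0 := by
  cases ss <;> simp [th]

theorem cup_th (A : List (X → ZMod 2)) (B : List (X → ZMod 2)) :
    ∀ l : List X, cup l (th A) (th B) = th (A ++ B) l := by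
  induction A with
  | nil =>
    intro l
    rcases l with _ | ⟨v, _ | ⟨w, l⟩⟩
    · simp [cup, th_nil]
    · simp [cup, th]
    · simp [cup, th, cup_zero_left]
  | cons s A ih =>
    intro l
    rcases l with _ | ⟨v, _ | ⟨w, l⟩⟩
    · simp [cup, th_nil]
    · simp [cup, th]
    · have := ih (w :: l)
      simp only [cup, th, List.cons_append] at this ⊢
      rw [cup_smul, ← this]; ring

theorem del_th (A : List (X → ZMod 2)) : ∀ l : List X, del l (th A) = 0 := by
  induction A with
  | nil =>
    intro l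
    rcases l with _ | ⟨u, _ | ⟨v, _ | ⟨w, l⟩⟩⟩
    · simp [del]
    · simp [del, th]
    · simp [del, th, two]
    · simp [del, th, del_zero]
  | cons s A ih =>
    intro l
    rcases l with _ | ⟨u, _ | ⟨v, _ | ⟨w, l⟩⟩⟩
    · simp [del]
    · simp [del, th]
    · simp [del, th]
    · have h := ih (v :: w :: l)
      simp only [del, th] at h ⊢
      rw [del_smul]
      have h1 := two (s u * th A (w :: l))
      have h2 := two (s v * th A (w :: l))
      have h3 := two (s w * th A (w :: l))
      have h4 := two ((s u + s v) * th A (w :: l))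
      linear_combination (s u + s v) * h + h1 + h2 + h3 - h4

theorem th_map (G : X → Y) (A : List (Y → ZMod 2)) :
    ∀ l : List X, th (A.map (fun s => fun v => s (G v))) l = th A (l.map G) := by
  induction A with
  | nil =>
    intro l
    rcases l with _ | ⟨u, _ | ⟨v, l⟩⟩ <;> simp [th]
  | cons s A ih =>
    intro l
    rcases l with _ | ⟨u, _ | ⟨v, l⟩⟩
    · simp [th]
    · simp [th]
    · have := ih (v :: l)
      simp only [List.map_cons, th] at this ⊢
      rw [this]

theorem th_const (A : List (X → ZMod 2)) : ∀ l : List X,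
    (∃ s ∈ A, ∀ v ∈ l, ∀ w ∈ l, s v = s w) → th A l = 0 := by
  induction A with
  | nil => intro l h; simp at h
  | cons s A ih =>
    intro l h
    rcases l with _ | ⟨u, _ | ⟨v, l⟩⟩
    · simp [th]
    · simp [th]
    · obtain ⟨s', hs', h⟩ := h
      simp only [th]
      rcases List.mem_cons.1 hs' with rfl | hs'
      · rw [h u (by simp) v (by simp), two]; simp
      · rw [ih (v :: l) ⟨s', hs', fun a ha b hb => h a (by simp [ha]) b (by simp [hb])⟩]; simp

end Chains

section Fund

/-- the sign cochain -/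
noncomputable def sg (x : ℝ) : ZMod 2 := if 0 < x then 1 else 0

/-- the list of coordinate signs -/
noncomputable def sgs (N : ℕ) : List ((Fin N → ℝ) → ZMod 2) :=
  List.ofFn fun i : Fin N => fun v : Fin N → ℝ => sg (v i)

theorem norm_cons {N : ℕ} (t : ℝ) (v : Fin N → ℝ) :
    ‖(Fin.cons t v : Fin (N + 1) → ℝ)‖ = max |t| ‖v‖ := by
  apply le_antisymm
  · refine (pi_norm_le_iff_of_nonneg (by positivity)).2 fun i => ?_
    refine Fin.cases ?_ (fun j => ?_) i
    · simp
    · simp only [Fin.cons_succ]
      exact (norm_le_pi_norm v j).trans (le_max_right _ _)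
  · refine max_le ?_ ?_
    · simpa using norm_le_pi_norm (Fin.cons t v : Fin (N + 1) → ℝ) 0
    · refine (pi_norm_le_iff_of_nonneg (by positivity)).2 fun j => ?_
      simpa using norm_le_pi_norm (Fin.cons t v : Fin (N + 1) → ℝ) j.succ

theorem exists_fund (R : ℝ) (hR : 0 < R) (δ : ℝ) (hδ : 0 < δ) (N : ℕ) :
    ∃ I : (List (Fin N → ℝ) → ZMod 2) → ZMod 2,
      (∀ φ ψ, I (fun m => φ m + ψ m) = I φ + I ψ) ∧
      (∀ φ, (∀ l, (∀ v ∈ l, ‖v‖ ≤ R) → (∀ v ∈ l, ∀ w ∈ l, dist v w < δ) → φ l = 0) → I φ = 0) ∧
      (∀ η, (∀ l, (∀ v ∈ l, R ≤ ‖v‖) → η l = 0) → I (fun m => del m η) = 0) ∧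
      I (th (sgs N)) = 1 := by
  induction N with
  | zero =>
    refine ⟨fun φ => φ [0], fun _ _ => rfl, fun φ h => h _ (by
      intro v hv; rw [List.mem_singleton.1 hv, norm_zero]; exact hR.le) (by simp [hδ]),
      fun η h => ?_, ?_⟩
    · simp [del, h [] (by simp)]
    · simp [sgs, th]
  | succ N ih =>
    obtain ⟨I, hadd, hloc, hst, hval⟩ := ih
    obtain ⟨M, hM⟩ := exists_nat_gt (2 * R / δ)
    have hM0 : (0 : ℝ) < M := lt_trans (by positivity) hM
    have hMδ : 2 * R / M < δ := by
      rw [div_lt_iff₀ hδ] at hM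
      rw [div_lt_iff₀ hM0]; linarith
    let t : ℕ → ℝ := fun j => -R + j * (2 * R / M)
    let f : ℕ → (Fin N → ℝ) → (Fin (N + 1) → ℝ) := fun j v => Fin.cons (t j) v
    have hτ : 0 < 2 * R / M := by positivity
    have ht0 : t 0 = -R := by simp [t]
    have htM : t M = R := by simp only [t]; field_simp; ring
    have htb : ∀ j ≤ M, |t j| ≤ R := by
      intro j hj
      have h1 : (j : ℝ) ≤ M := by exact_mod_cast hj
      have h2 : (j : ℝ) * (2 * R / M) ≤ M * (2 * R / M) := by gcongr
      have h3 : (M : ℝ) * (2 * R / M) = 2 * R := by field_simp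
      have h4 : 0 ≤ (j : ℝ) * (2 * R / M) := by positivity
      simp only [t]
      rw [abs_le]; constructor <;> linarith
    have hI0 : I (fun _ => 0) = 0 := hloc _ fun _ _ _ => rfl
    refine ⟨fun φ => I (fun l => ∑ j ∈ Finset.range M, pr (f j) (f (j + 1)) l φ), ?_, ?_, ?_, ?_⟩
    · intro φ ψ
      simp only [pr_add, Finset.sum_add_distrib]
      exact hadd _ _
    · intro φ hφ
      apply hloc
      intro l hl hl'
      refine Finset.sum_eq_zero fun j hj => pr_loc' _ _ _ _ fun m hm => hφ m ?_ ?_
      · intro y hy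
        have hj' := Finset.mem_range.1 hj
        obtain ⟨x, hx, rfl | rfl⟩ := hm y hy
        · simp only [f, norm_cons]; exact max_le (htb j hj'.le) (hl x hx)
        · simp only [f, norm_cons]; exact max_le (htb (j + 1) hj') (hl x hx)
      · have key : ∀ (a b : ℝ) (x y : Fin N → ℝ), |a - b| < δ → dist x y < δ →
            dist (Fin.cons a x : Fin (N + 1) → ℝ) (Fin.cons b y) < δ := by
          intro a b x y h1 h2
          rw [dist_eq_norm] at h2 ⊢
          have : (Fin.cons a x : Fin (N + 1) → ℝ) - Fin.cons b y = Fin.cons (a - b) (x - y) := by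
            funext i
            refine Fin.cases ?_ (fun j => ?_) i <;> simp
          rw [this, norm_cons]
          exact max_lt h1 h2
        have e1 : |t j - t (j + 1)| < δ := by
          have : t j - t (j + 1) = -(2 * R / M) := by simp only [t]; push_cast; ring
          rw [this, abs_neg, abs_of_pos hτ]; exact hMδ
        intro y hy z hz
        obtain ⟨x, hx, rfl | rfl⟩ := hm y hy <;> obtain ⟨w, hw, rfl | rfl⟩ := hm z hz
        · exact key _ _ _ _ (by simpa using hδ) (hl' x hx w hw)
        · exact key _ _ _ _ e1 (hl' x hx w hw)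
        · exact key _ _ _ _ (by rwa [abs_sub_comm]) (hl' x hx w hw)
        · exact key _ _ _ _ (by simpa using hδ) (hl' x hx w hw)
    · intro η hη
      have e : (fun l : List (Fin N → ℝ) =>
          ∑ j ∈ Finset.range M, pr (f j) (f (j + 1)) l (fun m => del m η)) =
          fun l => del l (fun m => ∑ j ∈ Finset.range M, pr (f j) (f (j + 1)) m η) := by
        funext l
        rw [del_sum]
        have e1 : ∀ j, pr (f j) (f (j + 1)) l (fun m => del m η) =
            del l (fun m => pr (f j) (f (j + 1)) m η) +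
              (η (l.map (f (j + 1))) - η (l.map (f j))) := by
          intro j
          rw [pr_del]
          have := two (η (l.map (f j)))
          linear_combination this
        simp only [e1, Finset.sum_add_distrib]
        rw [Finset.sum_range_sub (fun j => η (l.map (f j))), hη, hη]
        · simp
        · intro v hv
          obtain ⟨x, -, rfl⟩ := List.mem_map.1 hv
          simp only [f, norm_cons, ht0, abs_neg, abs_of_pos hR]; exact le_max_left _ _
        · intro v hv
          obtain ⟨x, -, rfl⟩ := List.mem_map.1 hv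
          simp only [f, norm_cons, htM, abs_of_pos hR]; exact le_max_left _ _
      simp only [e]
      apply hst
      intro l hl
      refine Finset.sum_eq_zero fun j _ => pr_loc' _ _ _ _ fun m hm => hη m fun y hy => ?_
      obtain ⟨x, hx, rfl | rfl⟩ := hm y hy <;>
        (simp only [f, norm_cons]; exact (hl x hx).trans (le_max_right _ _))
    · have e : (fun l : List (Fin N → ℝ) =>
          ∑ j ∈ Finset.range M, pr (f j) (f (j + 1)) l (th (sgs (N + 1)))) = th (sgs N) := by
        funext l
        have e0 : sgs (N + 1) = (fun v => sg (v 0)) ::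
            List.ofFn fun i : Fin N => fun v : Fin (N + 1) → ℝ => sg (v i.succ) := by
          simp only [sgs]; rw [List.ofFn_succ]
        have e1 : ∀ j, pr (f j) (f (j + 1)) l (th (sgs (N + 1))) =
            (sg (t (j + 1)) - sg (t j)) * th (sgs N) l := by
          intro j
          rcases l with _ | ⟨x, l⟩
          · simp [pr, th_nil]
          · rw [e0]
            simp only [pr]
            rw [pr_head]
            · simp only [th]
              rw [← List.map_cons, ← th_map, List.map_ofFn]
              have : ((fun (s : (Fin (N + 1) → ℝ) → ZMod 2) (v : Fin N → ℝ) => s (f (j + 1) v)) ∘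
                  fun (i : Fin N) (v : Fin (N + 1) → ℝ) => sg (v i.succ)) =
                  fun (i : Fin N) (v : Fin N → ℝ) => sg (v i) := by
                funext i v; simp [f]
              rw [this]
              simp only [f, Fin.cons_zero, sgs]
              have := two (sg (t j) * th (List.ofFn fun (i : Fin N) (v : Fin N → ℝ) => sg (v i))
                (x :: l))
              linear_combination this
            · intro y m
              simp [th, f, two]
        simp only [e1, ← Finset.sum_mul]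
        rw [Finset.sum_range_sub (fun j => sg (t j)), htM, ht0]
        have : ¬ (0 < -R) := by linarith
        simp [sg, hR, this]
      simp only [e, hval]

theorem leb {X : Type*} [PseudoMetricSpace X] {K : Set X} (hK : IsCompact K) (Q : List X → Prop)
    (h0 : Q []) (h : ∀ u ∈ K, ∃ U ∈ 𝓝 u, ∀ l : List X, l ≠ [] → (∀ v ∈ l, v ∈ U) → Q l) :
    ∃ δ > 0, ∀ l : List X, (∀ v ∈ l, v ∈ K) → (∀ v ∈ l, ∀ w ∈ l, dist v w < δ) → Q l := by
  choose! U hU hQ using h
  obtain ⟨δ, hδ, H⟩ := lebesgue_number_lemma_of_metric (c := fun u : K => interior (U u)) hK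
    (fun _ => isOpen_interior)
    (fun u hu => Set.mem_iUnion.2 ⟨⟨u, hu⟩, mem_interior_iff_mem_nhds.2 (hU u hu)⟩)
  refine ⟨δ, hδ, fun l hl hl' => ?_⟩
  rcases l with _ | ⟨x, l⟩
  · exact h0
  · obtain ⟨u, hu⟩ := H x (hl x (by simp))
    refine hQ u u.2 _ (by simp) fun v hv => interior_subset (hu ?_)
    exact hl' v hv x (by simp)

end Fund

section Main

theorem sg_ev {X : Type*} [TopologicalSpace X] {f : X → ℝ} (hf : Continuous f) {u : X}
    (hu : f u ≠ 0) : {v | sg (f v) = sg (f u)} ∈ 𝓝 u := by
  rcases lt_or_gt_of_ne hu with h | h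
  · filter_upwards [(isOpen_lt hf continuous_const).mem_nhds h] with v hv
    simp [sg, h.not_gt, (show f v < 0 from hv).not_gt]
  · filter_upwards [(isOpen_lt continuous_const hf).mem_nhds h] with v hv
    simp [sg, h, show 0 < f v from hv]

open Classical in
/-- the twisted cocycle -/
noncomputable def tw {X : Type*} (s : X → ℝ) (A : List (X → ZMod 2)) (l : List X) : ZMod 2 :=
  (if ∀ v ∈ l, s v < 0 then 1 else 0) * th A l

theorem tw_nil {X : Type*} (s : X → ℝ) (A : List (X → ZMod 2)) : tw s A [] = 0 := by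
  simp [tw, th_nil]

theorem tw_neg {X : Type*} (s : X → ℝ) (A : List (X → ZMod 2)) (l : List X)
    (h : ∀ v ∈ l, s v < 0) : tw s A l = th A l := by
  rw [tw, if_pos h, one_mul]

theorem tw_pos {X : Type*} (s : X → ℝ) (A : List (X → ZMod 2)) (l : List X)
    (h : ∀ v ∈ l, 0 < s v) : tw s A l = 0 := by
  rcases l with _ | ⟨x, l⟩
  · exact tw_nil _ _
  · rw [tw, if_neg, zero_mul]
    intro h'
    exact absurd (h' x (by simp)) (h x (by simp)).not_gt

theorem tw_const {X : Type*} (s : X → ℝ) (A : List (X → ZMod 2)) (l : List X)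
    (h : ∃ s ∈ A, ∀ v ∈ l, ∀ w ∈ l, s v = s w) : tw s A l = 0 := by
  rw [tw, th_const A l h, mul_zero]

theorem tw_closed {X : Type*} [PseudoMetricSpace X] {K : Set X} (hK : IsCompact K) {a : ℕ}
    (F : Fin a → X → ℝ) (hF : ∀ i, Continuous (F i)) (s : X → ℝ) (hs : Continuous s)
    (h : ∀ u, (∀ i, F i u = 0) → s u ≠ 0) :
    ∃ δ > 0, ∀ l : List X, (∀ v ∈ l, v ∈ K) → (∀ v ∈ l, ∀ w ∈ l, dist v w < δ) →
      del l (tw s (List.ofFn fun i v => sg (F i v))) = 0 := by
  refine leb hK _ (by simp [del]) fun u _ => ?_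
  by_cases hu : ∀ i, F i u = 0
  · rcases lt_or_gt_of_ne (h u hu) with h' | h'
    · refine ⟨_, (isOpen_lt hs continuous_const).mem_nhds h', fun l _ hl => ?_⟩
      rw [del_congr l _ _ fun m hm => tw_neg s _ m fun v hv => hl v (hm v hv), del_th]
    · refine ⟨_, (isOpen_lt continuous_const hs).mem_nhds h', fun l _ hl => ?_⟩
      rw [del_congr l _ (fun _ => 0) fun m hm => tw_pos s _ m fun v hv => hl v (hm v hv), del_zero]
  · push Not at hu
    obtain ⟨i, hi⟩ := hu
    refine ⟨_, sg_ev (hF i) hi, fun l _ hl => ?_⟩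
    rw [del_congr l _ (fun _ => 0) fun m hm => tw_const s _ m ?_, del_zero]
    refine ⟨fun v => sg (F i v), by simp [List.mem_ofFn], fun v hv w hw => ?_⟩
    exact (hl v (hm v hv)).trans (hl w (hm w hw)).symm

theorem exact_ball {W : Type*} [NormedAddCommGroup W] [NormedSpace ℝ W] (R : ℝ) (hR : 0 < R)
    (α : List W → ZMod 2) (h0 : ∀ l : List W, α (l.map fun _ => 0) = 0) (δ : ℝ) (hδ : 0 < δ)
    (hα : ∀ l : List W, (∀ v ∈ l, ‖v‖ ≤ R) → (∀ v ∈ l, ∀ w ∈ l, dist v w < δ) → del l α = 0) :
    ∃ γ : List W → ZMod 2, γ [] = 0 ∧ ∀ l : List W, (∀ v ∈ l, ‖v‖ ≤ R) →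
      (∀ v ∈ l, ∀ w ∈ l, dist v w < δ / 2) → del l γ = α l := by
  obtain ⟨M, hM⟩ := exists_nat_gt (2 * R / δ)
  have hM0 : (0 : ℝ) < M := lt_trans (by positivity) hM
  have hMδ : R / M < δ / 2 := by
    rw [div_lt_iff₀ hδ] at hM
    rw [div_lt_iff₀ hM0]; linarith
  let f : ℕ → W → W := fun j v => ((j : ℝ) / M) • v
  refine ⟨fun m => ∑ j ∈ Finset.range M, pr (f j) (f (j + 1)) m α, by simp [pr], fun l hl hl' => ?_⟩
  rw [del_sum]
  have e1 : ∀ j ∈ Finset.range M, del l (fun m => pr (f j) (f (j + 1)) m α) =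
      α (l.map (f (j + 1))) - α (l.map (f j)) := by
    intro j hj
    have hj' : (j : ℝ) + 1 ≤ M := by exact_mod_cast Finset.mem_range.1 hj
    have e2 := pr_del (f j) (f (j + 1)) l α
    have key : ∀ y, (∃ x ∈ l, y = f j x ∨ y = f (j + 1) x) →
        ∃ x ∈ l, ∃ c : ℝ, (j : ℝ) / M ≤ c ∧ c ≤ j / M + 1 / M ∧ y = c • x := by
      rintro y ⟨x, hx, rfl | rfl⟩
      · exact ⟨x, hx, _, le_rfl, by simp [hM0.le], rfl⟩
      · refine ⟨x, hx, _, ?_, ?_, rfl⟩
        · push_cast; gcongr; linarith
        · push_cast; rw [add_div]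
    have hj0 : (0 : ℝ) ≤ j / M := by positivity
    have hj1 : (j : ℝ) / M + 1 / M ≤ 1 := by
      rw [← add_div, div_le_one hM0]; exact hj'
    rw [pr_loc' _ _ _ _ fun m hm => hα m ?_ ?_] at e2
    · have h1 := two (α (l.map (f (j + 1))))
      linear_combination -e2 - h1
    · intro y hy
      obtain ⟨x, hx, c, h1, h2, rfl⟩ := key y (hm y hy)
      rw [norm_smul, Real.norm_eq_abs, abs_of_nonneg (by linarith)]
      have := hl x hx
      have := norm_nonneg x
      nlinarith
    · intro y hy z hz
      obtain ⟨x, hx, c, h1, h2, rfl⟩ := key y (hm y hy)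
      obtain ⟨w, hw, d, h3, h4, rfl⟩ := key z (hm z hz)
      have e3 : c • x - d • w = c • (x - w) + (c - d) • w := by
        rw [smul_sub, sub_smul]; abel
      rw [dist_eq_norm, e3]
      refine lt_of_le_of_lt (norm_add_le _ _) ?_
      rw [norm_smul, norm_smul, Real.norm_eq_abs, Real.norm_eq_abs, abs_of_nonneg (by linarith)]
      have h5 := hl' x hx w hw
      rw [dist_eq_norm] at h5
      have h6 : |c - d| ≤ 1 / M := abs_le.2 ⟨by linarith, by linarith⟩
      have h7 : |c - d| * ‖w‖ ≤ 1 / M * R :=
        mul_le_mul h6 (hl w hw) (norm_nonneg _) (by positivity)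
      have h8 : 1 / (M : ℝ) * R = R / M := by ring
      have h9 : c * ‖x - w‖ ≤ 1 * ‖x - w‖ := by gcongr; linarith
      linarith
  rw [Finset.sum_congr rfl e1, Finset.sum_range_sub (fun j => α (l.map (f j)))]
  have e4 : f M = id := by funext v; simp [f, hM0.ne']
  have e5 : f 0 = fun _ => 0 := by funext v; simp [f]
  rw [e4, e5, h0]; simp

theorem triple_fin {a b : ℕ} (ha : 0 < a) (hb : 0 < b)
    (G : (Fin (a + b) → ℝ) → (Fin (a + b) → ℝ)) (s t : (Fin (a + b) → ℝ) → ℝ)
    (hG : Continuous G) (hs : Continuous s) (ht : Continuous t)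
    (hx : ∀ u, (∀ i : Fin a, G u (Fin.castAdd b i) = 0) → s u ≠ 0)
    (hy : ∀ u, (∀ j : Fin b, G u (Fin.natAdd a j) = 0) → t u ≠ 0)
    (hid : ∀ᶠ u in 𝓝 0, G u = u) (hs0 : s 0 < 0) (ht0 : t 0 < 0)
    (h0 : ∀ u, G u = 0 → s u < 0 → t u < 0 → u = 0)
    (R : ℝ) (hR : 0 < R)
    (hc : ∀ u v, R ≤ ‖u‖ → R ≤ ‖v‖ → ∀ j : Fin b, G u (Fin.natAdd a j) = G v (Fin.natAdd a j)) :
    False := by
  have hK : IsCompact (closedBall (0 : Fin (a + b) → ℝ) R) := isCompact_closedBall _ _
  have hGi : ∀ i, Continuous fun u => G u i := fun i => (continuous_apply i).comp hG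
  set A : List ((Fin (a + b) → ℝ) → ZMod 2) :=
    List.ofFn fun (i : Fin a) v => sg (G v (Fin.castAdd b i)) with hA
  set B : List ((Fin (a + b) → ℝ) → ZMod 2) :=
    List.ofFn fun (i : Fin b) v => sg (G v (Fin.natAdd a i)) with hB
  obtain ⟨δ1, hδ1, H1⟩ := tw_closed hK (fun (i : Fin a) v => G v (Fin.castAdd b i))
    (fun i => hGi _) s hs hx
  obtain ⟨δ2, hδ2, H2⟩ := tw_closed hK (fun (i : Fin b) v => G v (Fin.natAdd a i))
    (fun i => hGi _) t ht hy
  obtain ⟨γ, hγ0, hγ⟩ := exact_ball R hR (tw s A) (by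
    intro l
    apply tw_const
    refine ⟨fun v => sg (G v (Fin.castAdd b ⟨0, ha⟩)), List.mem_ofFn.2 ⟨⟨0, ha⟩, rfl⟩, ?_⟩
    intro v hv w hw
    obtain ⟨_, -, rfl⟩ := List.mem_map.1 hv
    obtain ⟨_, -, rfl⟩ := List.mem_map.1 hw
    rfl) δ1 hδ1 fun l hl hl' => H1 l (fun v hv => by simpa using hl v hv) hl'
  have hAB : A ++ B = (sgs (a + b)).map (fun s => fun v => s (G v)) := by
    rw [sgs, List.map_ofFn, List.ofFn_add]
    rfl
  obtain ⟨δ3, hδ3, H3⟩ := leb hK (fun l => cup l (tw s A) (tw t B) = th (sgs (a + b)) l)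
    (by simp [cup, th_nil]) (by
      intro u _
      by_cases hu : u = 0
      · subst hu
        refine ⟨_, inter_mem hid (inter_mem ((isOpen_lt hs continuous_const).mem_nhds hs0)
          ((isOpen_lt ht continuous_const).mem_nhds ht0)), fun l _ hl => ?_⟩
        rw [cup_congr l _ (th A) _ (th B) (fun m hm => tw_neg s _ m fun v hv => (hl v (hm v hv)).2.1)
          (fun m hm => tw_neg t _ m fun v hv => (hl v (hm v hv)).2.2), cup_th, hAB, th_map]
        congr 1
        conv_rhs => rw [← List.map_id l]
        exact List.map_congr_left fun v hv => (hl v hv).1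
      · obtain ⟨i, hi⟩ : ∃ i, u i ≠ 0 := by
          by_contra hcon
          push Not at hcon
          exact hu (funext hcon)
        have U1 := sg_ev (f := fun v : Fin (a + b) → ℝ => v i) (continuous_apply i) hi
        have hth : ∀ l : List (Fin (a + b) → ℝ), (∀ v ∈ l, sg (v i) = sg (u i)) →
            th (sgs (a + b)) l = 0 := fun l hl =>
          th_const _ _ ⟨fun v => sg (v i), by simp [sgs, List.mem_ofFn],
            fun v hv w hw => (hl v hv).trans (hl w hw).symm⟩
        suffices h : ∃ U ∈ 𝓝 u, (∀ l : List (Fin (a + b) → ℝ), (∀ v ∈ l, v ∈ U) → tw s A l = 0) ∨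
            (∀ l : List (Fin (a + b) → ℝ), (∀ v ∈ l, v ∈ U) → tw t B l = 0) by
          obtain ⟨U, hU, h⟩ := h
          refine ⟨_, inter_mem U1 hU, fun l _ hl => ?_⟩
          rw [hth l fun v hv => (hl v hv).1]
          rcases h with h | h
          · rw [cup_congr l _ (fun _ => 0) _ (tw t B)
              (fun m hm => h m fun v hv => (hl v (hm v hv)).2) (fun _ _ => rfl), cup_zero_left]
          · rw [cup_congr l _ (tw s A) _ (fun _ => 0) (fun _ _ => rfl)
              (fun m hm => h m fun v hv => (hl v (hm v hv)).2), cup_zero_right]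
        by_cases h1 : ∀ i : Fin a, G u (Fin.castAdd b i) = 0
        · by_cases h2 : ∀ j : Fin b, G u (Fin.natAdd a j) = 0
          · have hGu : G u = 0 := by
              funext k
              refine Fin.addCases (fun i => h1 i) (fun j => h2 j) k
            rcases lt_or_gt_of_ne (hx u h1) with h3 | h3
            · rcases lt_or_gt_of_ne (hy u h2) with h4 | h4
              · exact absurd (h0 u hGu h3 h4) hu
              · exact ⟨_, (isOpen_lt continuous_const ht).mem_nhds h4,
                  Or.inr fun l hl => tw_pos _ _ _ hl⟩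
            · exact ⟨_, (isOpen_lt continuous_const hs).mem_nhds h3,
                Or.inl fun l hl => tw_pos _ _ _ hl⟩
          · push Not at h2
            obtain ⟨j, hj⟩ := h2
            refine ⟨_, sg_ev (hGi _) hj, Or.inr fun l hl => tw_const _ _ _
              ⟨fun v => sg (G v (Fin.natAdd a j)), by simp [hB, List.mem_ofFn],
                fun v hv w hw => (hl v hv).trans (hl w hw).symm⟩⟩
        · push Not at h1
          obtain ⟨j, hj⟩ := h1
          refine ⟨_, sg_ev (hGi _) hj, Or.inl fun l hl => tw_const _ _ _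
            ⟨fun v => sg (G v (Fin.castAdd b j)), by simp [hA, List.mem_ofFn],
              fun v hv w hw => (hl v hv).trans (hl w hw).symm⟩⟩)
  obtain ⟨I, hadd, hloc, hst, hval⟩ := exists_fund R hR (min (δ1 / 2) (min δ2 δ3))
    (by positivity) (a + b)
  have e1 := hst (fun m => cup m γ (tw t B)) (by
    intro l hl
    rw [cup_congr l _ γ _ (fun _ => 0) (fun _ _ => rfl), cup_zero_right]
    intro m hm
    refine tw_const _ _ _ ⟨fun v => sg (G v (Fin.natAdd a ⟨0, hb⟩)), List.mem_ofFn.2 ⟨⟨0, hb⟩, rfl⟩,
      fun v hv w hw => ?_⟩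
    simp only [hc v w (hl v (hm v hv)) (hl w (hm w hw))])
  have e2 := hloc (fun l => del l (fun m => cup m γ (tw t B)) + th (sgs (a + b)) l) (by
    intro l hl hl'
    rw [del_cup l γ _ (tw_nil _ _), ← H3 l (fun v hv => by simpa using hl v hv)
      (fun v hv w hw => (hl' v hv w hw).trans_le ((min_le_right _ _).trans (min_le_right _ _)))]
    rw [cup_congr l (fun m => del m γ) (tw s A) (tw t B) (tw t B) (fun m hm => hγ m
      (fun v hv => hl v (hm v hv)) fun v hv w hw =>
        (hl' v (hm v hv) w (hm w hw)).trans_le (min_le_left _ _)) (fun _ _ => rfl),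
      cup_congr l γ γ (fun m => del m (tw t B)) (fun _ => 0) (fun _ _ => rfl) (fun m hm => H2 m
        (fun v hv => by simpa using hl v (hm v hv)) fun v hv w hw =>
        (hl' v (hm v hv) w (hm w hw)).trans_le ((min_le_right _ _).trans (min_le_left _ _))),
      cup_zero_right, hγ0, zero_mul, add_zero, add_zero, two])
  rw [hadd, e1, hval] at e2
  exact absurd e2 (by decide)

/-- The triple obstruction. `G` is the identity near `0`, its second component is constant near
infinity, `s` does not vanish where the first component vanishes, `t` does not vanish where the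
second one does; then there is a second zero of `G` at which `s` and `t` are negative. -/
theorem triple {P Q : Type*} [NormedAddCommGroup P] [NormedSpace ℝ P] [FiniteDimensional ℝ P]
    [NormedAddCommGroup Q] [NormedSpace ℝ Q] [FiniteDimensional ℝ Q] [Nontrivial P] [Nontrivial Q]
    (G : P × Q → P × Q) (s t : P × Q → ℝ)
    (hG : Continuous G) (hs : Continuous s) (ht : Continuous t)
    (hx : ∀ u, (G u).1 = 0 → s u ≠ 0) (hy : ∀ u, (G u).2 = 0 → t u ≠ 0)
    (hid : ∀ᶠ u in 𝓝 0, G u = u) (hs0 : s 0 < 0) (ht0 : t 0 < 0)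
    (h0 : ∀ u, G u = 0 → s u < 0 → t u < 0 → u = 0)
    (R : ℝ) (c : Q) (hc : ∀ u, R ≤ ‖u‖ → (G u).2 = c) : False := by
  let bP := Module.finBasis ℝ P
  let bQ := Module.finBasis ℝ Q
  let e : (P × Q) ≃L[ℝ] (Fin (Module.finrank ℝ P + Module.finrank ℝ Q) → ℝ) :=
    ((bP.prod bQ).reindex finSumFinEquiv).equivFun.toContinuousLinearEquiv
  have e1 : ∀ u i, e u (Fin.castAdd _ i) = bP.repr u.1 i := by
    intro u i; simp [e]
  have e2 : ∀ u i, e u (Fin.natAdd _ i) = bQ.repr u.2 i := by
    intro u i; simp [e]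
  obtain ⟨C, hC, hCe⟩ : ∃ C, 0 < C ∧ ∀ u, ‖e u‖ ≤ C * ‖u‖ :=
    e.toContinuousLinearMap.bound
  refine triple_fin Module.finrank_pos Module.finrank_pos (fun u => e (G (e.symm u)))
    (fun u => s (e.symm u)) (fun u => t (e.symm u)) (by fun_prop) (by fun_prop) (by fun_prop)
    (fun u h => hx _ ?_) (fun u h => hy _ ?_) ?_ (by simpa) (by simpa) ?_ (C * max R 1)
    (by positivity) ?_
  · apply bP.repr.injective
    ext i
    simpa [e1] using h i
  · apply bQ.repr.injective
    ext i
    simpa [e2] using h i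
  · have : Tendsto e.symm (𝓝 0) (𝓝 0) := by simpa using e.symm.continuous.tendsto 0
    filter_upwards [this.eventually hid] with u hu
    rw [hu]; simp
  · intro u h1 h2 h3
    have := h0 _ (by simpa using h1) h2 h3
    simpa using this
  · have key : ∀ u, C * max R 1 ≤ ‖u‖ → (G (e.symm u)).2 = c := by
      intro u hu
      apply hc
      have := hCe (e.symm u)
      rw [e.apply_symm_apply] at this
      exact (le_max_left _ _).trans (le_of_mul_le_mul_left (hu.trans this) hC)
    intro u v hu hv j
    simp only [e2, key u hu, key v hv]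

/-- Brouwer type degree obstruction: a map which is the identity near `0` and constant near
infinity has a second zero. -/
theorem second_zero {U : Type*} [NormedAddCommGroup U] [NormedSpace ℝ U] [FiniteDimensional ℝ U]
    [Nontrivial U] (G : U → U) (hG : Continuous G) (hid : ∀ᶠ u in 𝓝 0, G u = u)
    (h0 : ∀ u, G u = 0 → u = 0) (R : ℝ) (c : U) (hc : ∀ u, R ≤ ‖u‖ → G u = c) : False := by
  let lam : ℝ → ℝ := fun z => min 1 (max 0 (|z| - 1))
  have hlam : Continuous lam := by fun_prop
  obtain ⟨u0, hu0⟩ : ∃ u0 : U, max R 1 ≤ ‖u0‖ := NormedSpace.exists_lt_norm ℝ U (max R 1) |>.imp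
    fun _ h => h.le
  have hc0 : c ≠ 0 := by
    intro h
    have := h0 u0 (by rw [hc u0 ((le_max_left _ _).trans hu0), h])
    rw [this, norm_zero] at hu0
    linarith [le_max_right R 1]
  refine triple (P := ℝ) (Q := U) (fun p => (p.1, (1 - lam p.1) • G p.2 + lam p.1 • c))
    (fun _ => -1) (fun _ => -1) (by fun_prop) continuous_const continuous_const
    (by simp) (by simp) ?_ (by simp) (by simp) ?_ (max R 2) c ?_
  · have h1 : ∀ᶠ p : ℝ × U in 𝓝 0, G p.2 = p.2 :=
      ((continuous_snd (X := ℝ) (Y := U)).tendsto 0).eventually hid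
    have h2 : ∀ᶠ p : ℝ × U in 𝓝 0, |p.1| < 1 :=
      (isOpen_lt (by fun_prop) continuous_const).mem_nhds (by simp)
    filter_upwards [h1, h2] with p h1 h2
    have : lam p.1 = 0 := by
      simp only [lam]; rw [max_eq_left (by linarith)]; simp
    simp [this, h1]
  · rintro ⟨z, u⟩ h - -
    simp only [Prod.mk_eq_zero] at h ⊢
    obtain ⟨rfl, h⟩ := h
    exact ⟨rfl, h0 u (by simpa [lam] using h)⟩
  · rintro ⟨z, u⟩ h
    rw [Prod.norm_mk, le_max_iff] at h
    rcases h with h | h
    · have : lam z = 1 := by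
        simp only [lam]
        have : 2 ≤ |z| := (le_max_right _ _).trans h
        rw [min_eq_left (le_max_of_le_right (by linarith))]
      simp [this]
    · simp only [hc u ((le_max_left _ _).trans h), ← add_smul]
      simp

end Main

end Pool.Agent.Lib.CupDegree
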